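import Mathlib

set_option autoImplicit false

namespace Pool.Agent.Results.MP_555fce_lc.Dense

open Filter Set

def W (e : ℕ) : Set ℕ := {n | ((Denumerable.ofNat Nat.Partrec.Code e).eval n).Dom}

def Tol (E : Setoid ℕ) : Prop := ∀ a b, W a = W b → E a b

def Learnable (E : Setoid ℕ) (K : Set (Set ℕ)) : Prop :=
  ∃ M : List ℕ → ℕ, ∀ e, W e ∈ K → ∀ μ : ℕ → ℕ, range μ = W e →
    ∃ i, (∀ᶠ s in atTop, M ((List.range s).map μ) = i) ∧ E i e

def Le (E F : Setoid ℕ) : Prop :=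
  ∀ K : Set (Set ℕ), (∀ A ∈ K, A.Nonempty ∧ ∃ e, A = W e) → Learnable E K → Learnable F K

def Lt (E F : Setoid ℕ) : Prop := Le E F ∧ ¬ Le F E

def Tell (E : Setoid ℕ) (K : Set (Set ℕ)) : Prop :=
  ∀ e, W e ∈ K → ∃ D : Finset ℕ, ↑D ⊆ W e ∧ ∀ b, W b ∈ K → ↑D ⊆ W b → W b ⊆ W e → E b e

lemma of_tell {E : Setoid ℕ} {K : Set (Set ℕ)} (h : Tell E K) : Learnable E K := by
  classical
  choose! D hD using h
  refine ⟨fun l => sInf {e | W e ∈ K ∧ (∀ x ∈ D e, x ∈ l) ∧ ∀ x ∈ l, x ∈ W e}, fun e he μ hμ => ?_⟩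
  let S := {b | W b ∈ K ∧ ↑(D b) ⊆ W e ∧ W e ⊆ W b}
  have hS : S.Nonempty := ⟨e, he, (hD e he).1, subset_rfl⟩
  have h0 := Nat.sInf_mem hS
  have h1 : ∀ x ∈ W e, ∀ᶠ s in atTop, x ∈ (List.range s).map μ := by
    rw [← hμ]
    rintro _ ⟨k, rfl⟩
    exact (eventually_gt_atTop k).mono fun s hs => List.mem_map_of_mem (List.mem_range.2 hs)
  have h2 : ∀ s, ∀ x ∈ (List.range s).map μ, x ∈ W e := fun s x hx => by
    obtain ⟨k, -, rfl⟩ := List.mem_map.1 hx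
    exact hμ ▸ mem_range_self k
  refine ⟨sInf S, ?_, E.symm ((hD _ h0.1).2 e he h0.2.1 h0.2.2)⟩
  have h3 : ∀ᶠ s in atTop, ∀ b ∈ Iio (sInf S), ¬ (W b ∈ K ∧ (∀ x ∈ D b, x ∈ (List.range s).map μ) ∧
      ∀ x ∈ (List.range s).map μ, x ∈ W b) := by
    refine (eventually_all_finite (finite_Iio _)).2 fun b hb => ?_
    by_cases hb' : W e ⊆ W b
    · exact Eventually.of_forall fun s h =>
        Nat.notMem_of_lt_sInf hb ⟨h.1, fun x hx => h2 s x (h.2.1 x hx), hb'⟩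
    · obtain ⟨x, hx, hx'⟩ := not_subset.1 hb'
      exact (h1 x hx).mono fun s hs h => hx' (h.2.2 x hs)
  filter_upwards [h3, (eventually_all_finset (D (sInf S))).2 fun x hx => h1 x (h0.2.1 hx)]
    with s a b
  have : sInf S ∈ {e | W e ∈ K ∧ (∀ x ∈ D e, x ∈ (List.range s).map μ) ∧
      ∀ x ∈ (List.range s).map μ, x ∈ W e} := ⟨h0.1, b, fun x hx => h0.2.2 (h2 s x hx)⟩
  exact le_antisymm (Nat.sInf_le this) (not_lt.1 fun h => a _ h (Nat.sInf_mem ⟨_, this⟩))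

lemma limit (l : ℕ → List ℕ) (h : ∀ n, l n <+: l (n + 1)) (hl : ∀ n, n ≤ (l n).length) :
    ∃ μ : ℕ → ℕ, ∀ n, (List.range (l n).length).map μ = l n := by
  have h1 : ∀ m n, m ≤ n → l m <+: l n := fun m n hmn => by
    induction hmn with
    | refl => exact List.prefix_rfl
    | step _ ih => exact ih.trans (h _)
  refine ⟨fun k => (l (k + 1))[k]'(hl (k + 1)), fun n => List.ext_getElem (by simp) fun i a b => ?_⟩
  simp only [List.getElem_map, List.getElem_range]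
  rcases le_total n (i + 1) with h2 | h2
  · exact ((h1 _ _ h2).getElem b).symm
  · exact (h1 _ _ h2).getElem _

lemma enum {A : Set ℕ} (hA : A.Nonempty) (Q : List ℕ → List ℕ → Prop) (l0 : List ℕ)
    (h0 : ∀ x ∈ l0, x ∈ A) (h : ∀ l : List ℕ, (∀ x ∈ l, x ∈ A) → l0 <+: l →
      ∃ t : List ℕ, (∀ x ∈ t, x ∈ A) ∧ Q l (l ++ t)) :
    ∃ μ : ℕ → ℕ, range μ = A ∧ (List.range l0.length).map μ = l0 ∧
      ∀ n, ∃ s ≥ n, ∃ t ≥ s, Q ((List.range s).map μ) ((List.range t).map μ) := by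
  obtain ⟨ν, hν⟩ := (to_countable A).exists_eq_range hA
  choose! t ht using h
  let l : ℕ → List ℕ := fun n => Nat.rec l0 (fun k s => s ++ t s ++ [ν k]) n
  have hs : ∀ n, l (n + 1) = l n ++ t (l n) ++ [ν n] := fun _ => rfl
  have inv : ∀ n, (∀ x ∈ l n, x ∈ A) ∧ l0 <+: l n ∧ n ≤ (l n).length := by
    intro n
    induction n with
    | zero => exact ⟨h0, List.prefix_rfl, Nat.zero_le _⟩
    | succ n ih =>
      rw [hs]
      refine ⟨fun x hx => ?_, ih.2.1.trans (by simp), by simp; omega⟩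
      simp only [List.mem_append, List.mem_singleton] at hx
      rcases hx with (hx | hx) | rfl
      exacts [ih.1 x hx, (ht _ ih.1 ih.2.1).1 x hx, hν ▸ mem_range_self n]
  obtain ⟨μ, hμ⟩ := limit l (fun n => by rw [hs]; simp) fun n => (inv n).2.2
  refine ⟨μ, subset_antisymm ?_ ?_, hμ 0, fun n => ⟨_, (inv n).2.2, (l n ++ t (l n)).length,
    by simp, ?_⟩⟩
  · rintro _ ⟨k, rfl⟩
    refine (inv (k + 1)).1 _ ?_
    rw [← hμ (k + 1)]
    exact List.mem_map_of_mem (List.mem_range.2 (inv (k + 1)).2.2)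
  · rw [hν]
    rintro _ ⟨k, rfl⟩
    have : ν k ∈ l (k + 1) := by rw [hs]; simp
    rw [← hμ (k + 1)] at this
    obtain ⟨j, -, hj⟩ := List.mem_map.1 this
    exact ⟨j, hj⟩
  · have := congrArg (List.take (l n ++ t (l n)).length) (hμ (n + 1))
    rw [hs, List.take_left', ← List.map_take, List.take_range, min_eq_left (by simp)] at this
    · rw [hμ, this]
      exact (ht _ (inv n).1 (inv n).2.1).2
    · rfl

lemma tell_of {E : Setoid ℕ} {K : Set (Set ℕ)} (hK : ∀ A ∈ K, A.Nonempty) (h : Learnable E K) :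
    Tell E K := by
  obtain ⟨M, hM⟩ := h
  intro e he
  obtain ⟨l, hl, lock⟩ : ∃ l : List ℕ, (∀ x ∈ l, x ∈ W e) ∧
      ∀ t : List ℕ, (∀ x ∈ t, x ∈ W e) → M (l ++ t) = M l := by
    by_contra hc
    push Not at hc
    obtain ⟨μ, h1, -, h2⟩ := enum (hK _ he) (fun a b => M b ≠ M a) [] (by simp)
      fun l hl _ => hc l hl
    obtain ⟨i, hi, -⟩ := hM e he μ h1
    obtain ⟨n, hn⟩ := eventually_atTop.1 hi
    obtain ⟨s, hs, t, ht, h3⟩ := h2 n
    exact h3 ((hn t (hs.trans ht)).trans (hn s hs).symm)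
  have key : ∀ b, W b ∈ K → (∀ x ∈ l, x ∈ W b) → W b ⊆ W e → E (M l) b := by
    intro b hb h1 h2
    obtain ⟨μ, h3, -, h4⟩ := enum (hK _ hb) (fun a _ => M a = M l) l h1 (by
      rintro _ hl' ⟨t, rfl⟩
      exact ⟨[], by simp, lock t fun x hx => h2 (hl' x (List.mem_append_right _ hx))⟩)
    obtain ⟨i, hi, h5⟩ := hM b hb μ h3
    obtain ⟨n, hn⟩ := eventually_atTop.1 hi
    obtain ⟨s, hs, -, -, h6⟩ := h4 n
    rwa [← h6, hn s hs]
  exact ⟨l.toFinset, fun x hx => hl x (by simpa using hx), fun b hb h1 h2 =>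
    E.trans (E.symm (key b hb (fun x hx => h1 (by simpa using hx)) h2)) (key e he hl subset_rfl)⟩

def Germ (E F : Setoid ℕ) : Prop := ∀ e, (W e).Nonempty → ∃ D : Finset ℕ, ↑D ⊆ W e ∧
  ∀ b, (W b).Nonempty → ↑D ⊆ W b → W b ⊆ W e → E b e → F b e

lemma le_iff {E F : Setoid ℕ} (hE : Tol E) : Le E F ↔ Germ E F := by
  constructor
  · intro h e he
    let K : Set (Set ℕ) := {A | A.Nonempty ∧ ∃ b, A = W b ∧ E b e}
    obtain ⟨D, h1, h2⟩ := tell_of (K := K) (fun A hA => hA.1)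
      (h K (fun A ⟨h1, b, h2, _⟩ => ⟨h1, b, h2⟩) (of_tell fun a ⟨_, a', h1, h2⟩ =>
        ⟨∅, by simp, fun b ⟨_, b', h3, h4⟩ _ _ =>
          E.trans (E.trans (hE _ _ h3) h4) (E.symm (E.trans (hE _ _ h1) h2))⟩))
      e ⟨he, e, rfl, E.refl e⟩
    exact ⟨D, h1, fun b hb h3 h4 h5 => h2 b ⟨hb, b, rfl, h5⟩ h3 h4⟩
  · intro h K hK hL
    refine of_tell fun e he => ?_
    obtain ⟨D, h1, h2⟩ := tell_of (fun A hA => (hK A hA).1) hL e he
    obtain ⟨D', h3, h4⟩ := h e (hK _ he).1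
    refine ⟨D ∪ D', by simp [h1, h3], fun b hb h5 h6 => ?_⟩
    rw [Finset.coe_union, union_subset_iff] at h5
    exact h4 b (hK _ hb).1 h5.2 h6 (h2 b hb h5.1 h6)

theorem result (E F : Setoid ℕ) (hE : Tol E) (hF : Tol F) (h : Lt E F) :
    ∃ G : Setoid ℕ, Tol G ∧ Lt E G ∧ Lt G F := by
  classical
  obtain ⟨h1, h2⟩ := h
  rw [le_iff hE] at h1
  rw [le_iff hF, Germ] at h2
  push Not at h2
  obtain ⟨e, he, h2⟩ := h2
  have h3 : ∀ D : Finset ℕ, ↑D ⊆ W e → ∃ b a, (W b).Nonempty ∧ ↑D ⊆ W b ∧ W b ⊆ W e ∧ F b e ∧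
      ¬ E b e ∧ a ∈ W e ∧ a ∉ W b := fun D hD => by
    obtain ⟨b, h4, h5, h6, h7, h8⟩ := h2 D hD
    obtain ⟨a, ha⟩ := not_subset.1 fun h => h8 (hE _ _ (subset_antisymm h6 h))
    exact ⟨b, a, h4, h5, h6, h7, h8, ha⟩
  choose! b a hb using h3
  obtain ⟨D, hD0, hs⟩ : ∃ D : ℕ → Finset ℕ, D 0 = ∅ ∧
      ∀ n, D (n + 1) = insert (a (D n)) (D n ∪ (Finset.range (n + 1)).filter (· ∈ W e)) :=
    ⟨fun n => Nat.rec ∅ (fun k s => insert (a s) (s ∪ (Finset.range (k + 1)).filter (· ∈ W e))) n,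
      rfl, fun _ => rfl⟩
  have hD : ∀ n : ℕ, ((D n : Finset ℕ) : Set ℕ) ⊆ W e := fun n => by
    induction n with
    | zero => simp [hD0]
    | succ n ih =>
      rw [hs, Finset.coe_insert, Finset.coe_union]
      exact insert_subset (hb _ ih).2.2.2.2.2.1 (union_subset ih fun x hx => by
        simpa using (Finset.mem_filter.1 hx).2)
  have hm : Monotone D := monotone_nat_of_le_succ fun n => by
    rw [hs]; exact Finset.subset_union_left.trans (Finset.subset_insert _ _)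
  have ha : ∀ m n, m < n → a (D m) ∈ D n := fun m n h => hm h (by rw [hs]; simp)
  have hx : ∀ x ∈ W e, ∀ n, x < n → x ∈ D n := fun x hx n h => hm h (by rw [hs]; simp [hx])
  have hbig : ∀ S : Finset ℕ, ↑S ⊆ W e → ∃ n, S ⊆ D (2 * n) ∧ S ⊆ D (2 * n + 1) := fun S hS =>
    ⟨S.sup id + 1, fun x h => hx x (hS h) _ (by have := Finset.le_sup (f := id) h; simp at this; omega),
      fun x h => hx x (hS h) _ (by have := Finset.le_sup (f := id) h; simp at this; omega)⟩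
  let O : Set ℕ → Prop := fun B => ∃ n, ((D (2 * n) : Finset ℕ) : Set ℕ) ⊆ B ∧ B ⊆ W (b (D (2 * n)))
  let X : ℕ → Prop := fun x => F x e ∧ (E x e ∨ O (W x))
  let G : Setoid ℕ := ⟨fun x y => (X x ∧ X y) ∨ (¬ X x ∧ ¬ X y ∧ E x y ∧ F x y),
    fun x => (em (X x)).imp (fun h => ⟨h, h⟩) fun h => ⟨h, h, E.refl x, F.refl x⟩,
    fun h => h.imp And.symm fun h => ⟨h.2.1, h.1, E.symm h.2.2.1, F.symm h.2.2.2⟩, by
      rintro x y z (h | h) (h' | h')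
      exacts [Or.inl ⟨h.1, h'.2⟩, absurd h.2 h'.1, absurd h'.1 h.2.1,
        Or.inr ⟨h.1, h'.2.1, E.trans h.2.2.1 h'.2.2.1, F.trans h.2.2.2 h'.2.2.2⟩]⟩
  have hG' : ∀ x y, E x y → F x y → (O (W x) ↔ O (W y)) → G x y := fun x y h4 h5 h6 => by
    have : X x ↔ X y := and_congr ⟨F.trans (F.symm h5), F.trans h5⟩
      (or_congr ⟨E.trans (E.symm h4), E.trans h4⟩ h6)
    exact (em (X x)).imp (fun h => ⟨h, this.1 h⟩) fun h => ⟨h, fun h' => h (this.2 h'), h4, h5⟩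
  have hG : Tol G := fun x y h => hG' x y (hE _ _ h) (hF _ _ h) (by rw [h])
  have Xe : X e := ⟨F.refl e, Or.inl (E.refl e)⟩
  refine ⟨G, hG, ⟨(le_iff hE).2 fun c hc => ?_, fun h => ?_⟩,
    (le_iff hG).2 fun c _ => ⟨∅, by simp, fun x _ _ _ h => ?_⟩, fun h => ?_⟩
  · obtain ⟨S, s1, s2⟩ := h1 c hc
    by_cases hce : W c = W e
    · exact ⟨S, s1, fun x x1 x2 x3 x4 => Or.inl ⟨⟨F.trans (s2 x x1 x2 x3 x4) (hF _ _ hce),
        Or.inl (E.trans x4 (hE _ _ hce))⟩, hF _ _ hce, Or.inl (hE _ _ hce)⟩⟩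
    suffices ∃ T : Finset ℕ, ↑T ⊆ W c ∧ ∀ B, ↑T ⊆ B → B ⊆ W c → (O B ↔ O (W c)) by
      obtain ⟨T, t1, t2⟩ := this
      refine ⟨S ∪ T, by simp [s1, t1], fun x x1 x2 x3 x4 => ?_⟩
      rw [Finset.coe_union, union_subset_iff] at x2
      exact hG' x c x4 (s2 x x1 x2.1 x3 x4) (t2 _ x2.2 x3)
    by_cases hO : O (W c)
    · obtain ⟨n, o1, o2⟩ := hO
      exact ⟨_, o1, fun B b1 b2 => iff_of_true ⟨n, b1, b2.trans o2⟩ ⟨n, o1, o2⟩⟩
    by_cases hec : W e ⊆ W c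
    · obtain ⟨x, x1, x2⟩ := not_subset.1 fun h => hce (subset_antisymm h hec)
      exact ⟨{x}, by simpa using x1, fun B b1 _ => iff_of_false
        (fun ⟨n, _, o2⟩ => x2 ((hb _ (hD _)).2.2.1 (o2 (b1 (by simp))))) hO⟩
    · obtain ⟨x, x1, x2⟩ := not_subset.1 hec
      have : ∀ n, ∃ y ∈ W c, ((D (2 * n) : Finset ℕ) : Set ℕ) ⊆ W c → y ∉ W (b (D (2 * n))) := fun n => by
        by_contra hn
        push Not at hn
        exact hO ⟨n, (hn _ hc.some_mem).1, fun y hy => (hn y hy).2⟩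
      choose y y1 y2 using this
      refine ⟨(Finset.range (x + 1)).image y, by simp [subset_def, y1], fun B b1 b2 =>
        iff_of_false (fun ⟨n, o1, o2⟩ => y2 n (o1.trans b2) (o2 (b1 ?_))) hO⟩
      have : n < x + 1 := not_le.1 fun h => x2 (b2 (o1 (hx x x1 _ (by omega))))
      exact Finset.mem_image_of_mem y (Finset.mem_range.2 this)
  · obtain ⟨S, s1, s2⟩ := (le_iff hG).1 h e he
    obtain ⟨n, hn, -⟩ := hbig S s1
    obtain ⟨b1, b2, b3, b4, b5, -⟩ := hb _ (hD (2 * n))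
    exact b5 (s2 _ b1 (Subset.trans hn b2) b3 (Or.inl ⟨⟨b4, Or.inr ⟨n, b2, subset_rfl⟩⟩, Xe⟩))
  · exact h.elim (fun h => F.trans h.1.1 (F.symm h.2.1)) fun h => h.2.2.2
  · obtain ⟨S, s1, s2⟩ := (le_iff hF).1 h e he
    obtain ⟨n, -, hn⟩ := hbig S s1
    obtain ⟨b1, b2, b3, b4, b5, -⟩ := hb _ (hD (2 * n + 1))
    rcases s2 _ b1 (Subset.trans hn b2) b3 b4 with ⟨⟨-, h4 | ⟨m, o1, o2⟩⟩, -⟩ | h4
    · exact b5 h4
    · rcases lt_or_ge n m with h5 | h5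
      · exact (hb _ (hD (2 * n + 1))).2.2.2.2.2.2 (o1 (ha _ _ (by omega)))
      · exact (hb _ (hD (2 * m))).2.2.2.2.2.2 (o2 (b2 (ha _ _ (by omega))))
    · exact h4.2.1 Xe

end Pool.Agent.Results.MP_555fce_lc.Dense
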